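import Mathlib
import Pool.Agent.Helper71.SECore

/-!
The rearrangeability number of the ternary shuffle-exchange graphs on words of length 3 is
6, not 5.
-/

namespace Pool.Agent.Results.MP_ec5f85_co.ShuffleThree

open Pool.Agent.Helper71.SECore

/-- Adjacency of `u_i` and `v_j` in the 2-stage shuffle-exchange graph `SE(k,n)`: with
`t = k^(n-1)`, the residue `(j - k i) mod t` is less than `k`. -/
def SEAdj (k n : ℕ) (i j : Fin (k ^ (n - 1))) : Prop :=
  ((j : ℤ) - (k : ℤ) * (i : ℤ)) % ((k ^ (n - 1) : ℕ) : ℤ) < (k : ℤ)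

/-- The `r`-stage graph `(SE(k,n))^(r-1)`; the vertex `(s, i)` is the `i`-th vertex of the
`(s+1)`-st part. -/
def stageGraph (k n r : ℕ) : SimpleGraph (Fin r × Fin (k ^ (n - 1))) where
  Adj p q := ((p.1 : ℕ) + 1 = (q.1 : ℕ) ∧ SEAdj k n p.2 q.2) ∨
    ((q.1 : ℕ) + 1 = (p.1 : ℕ) ∧ SEAdj k n q.2 p.2)
  symm := ⟨fun _ _ h => h.symm⟩
  loopless := ⟨fun p h => by rcases h with ⟨h, -⟩ | ⟨h, -⟩ <;> omega⟩

/-- Masks: `k`-regular bipartite multigraphs between the first and the last part, given by
their edge multiplicities. -/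
def IsMask (k n : ℕ) (H : Fin (k ^ (n - 1)) → Fin (k ^ (n - 1)) → ℕ) : Prop :=
  (∀ x, ∑ y, H x y = k) ∧ (∀ y, ∑ x, H x y = k)

/-- The `r`-stage graph `(SE(k,n))^(r-1)` is rearrangeable: for every mask `H` there are
pairwise edge-disjoint paths, one for each edge of `H` (the `H x y` parallel edges between
`x` and `y` are indexed by `Fin (H x y)`), joining `x` in the first part to `y` in the last
part. -/
def Rearrangeable (k n r : ℕ) : Prop :=
  ∀ H : Fin (k ^ (n - 1)) → Fin (k ^ (n - 1)) → ℕ, IsMask k n H →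
    ∀ first last : Fin r, (first : ℕ) = 0 → (last : ℕ) + 1 = r →
      ∃ P : (e : Σ x : Fin (k ^ (n - 1)), Σ y : Fin (k ^ (n - 1)), Fin (H x y)) →
          (stageGraph k n r).Path (first, e.1) (last, e.2.1),
        ∀ e e', e ≠ e' → ∀ a ∈ (P e).1.edges, a ∉ (P e').1.edges

/-! ### From edge-disjoint paths to words -/

/-- The nodes of each stage for `k = n = 3`. -/
abbrev Nd : Type := Fin (3 ^ (3 - 1))

lemma seadj_iff : ∀ i j : Nd, SEAdj 3 3 i j ↔ j.val / 3 = i.val % 3 := by
  unfold SEAdj
  decide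

instance (i j : Nd) : Decidable (SEAdj 3 3 i j) := decidable_of_iff _ (seadj_iff i j).symm

/-- The edge from node `i` of stage `s` to node `j` of stage `s + 1`. -/
def le {r : ℕ} (s : ℕ) (h : s + 1 < r) (i j : Nd) : Sym2 (Fin r × Nd) :=
  s((⟨s, by omega⟩, i), (⟨s + 1, h⟩, j))

lemma le_inj {r : ℕ} {s s' : ℕ} {h : s + 1 < r} {h' : s' + 1 < r} {i j i' j' : Nd}
    (he : le s h i j = le s' h' i' j') : s = s' ∧ i = i' ∧ j = j' := by
  unfold le at he
  rw [Sym2.eq_iff] at he
  simp only [Prod.mk.injEq, Fin.mk.injEq] at he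
  rcases he with ⟨⟨h1, h2⟩, ⟨h3, h4⟩⟩ | ⟨⟨h1, h2⟩, ⟨h3, h4⟩⟩
  · exact ⟨h1, h2, h4⟩
  · omega

lemma crossing {r : ℕ} {u v : Fin r × Nd} (p : (stageGraph 3 3 r).Walk u v)
    (S : Set (Fin r × Nd)) (hu : u ∈ S) (hv : v ∉ S) :
    ∃ a b, (stageGraph 3 3 r).Adj a b ∧ s(a, b) ∈ p.edges ∧ a ∈ S ∧ b ∉ S := by
  obtain ⟨d, hd, h1, h2⟩ := p.exists_boundary_dart S hu hv
  exact ⟨d.fst, d.snd, d.adj, List.mem_map_of_mem (f := SimpleGraph.Dart.edge) hd, h1, h2⟩

lemma card_level : Fintype.card {ij : Nd × Nd // SEAdj 3 3 ij.1 ij.2} = 27 := by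
  have h : Fintype.card {ij : Nd × Nd // SEAdj 3 3 ij.1 ij.2} =
      Fintype.card {ij : Nd × Nd // ij.2.val / 3 = ij.1.val % 3} :=
    Fintype.card_congr (Equiv.subtypeEquivRight (fun ij => seadj_iff ij.1 ij.2))
  rw [h]
  decide

lemma card_mask {H : Nd → Nd → ℕ} (hH : IsMask 3 3 H) :
    Fintype.card (Σ x : Nd, Σ y : Nd, Fin (H x y)) = 27 := by
  simp only [Fintype.card_sigma, Fintype.card_fin]
  rw [Finset.sum_congr rfl (fun x _ => hH.1 x)]
  simp

theorem words {r : ℕ} (hr : 2 ≤ r) {H : Nd → Nd → ℕ} (hH : IsMask 3 3 H)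
    {first last : Fin r} (hfirst : (first : ℕ) = 0) (hlast : (last : ℕ) + 1 = r)
    (P : (e : Σ x : Nd, Σ y : Nd, Fin (H x y)) →
          (stageGraph 3 3 r).Path (first, e.1) (last, e.2.1))
    (hP : ∀ e e', e ≠ e' → ∀ a ∈ (P e).1.edges, a ∉ (P e').1.edges) :
    ∃ w : (Σ x : Nd, Σ y : Nd, Fin (H x y)) → ℕ → Nd, (∀ e, w e 0 = e.1) ∧
      (∀ e, w e (r - 1) = e.2.1) ∧
      (∀ e s, s + 1 < r → SEAdj 3 3 (w e s) (w e (s + 1))) ∧
      (∀ e e', e ≠ e' → ∀ s, s + 1 < r → ¬ (w e s = w e' s ∧ w e (s + 1) = w e' (s + 1))) := by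
  classical
  have hlev : ∀ (e : Σ x : Nd, Σ y : Nd, Fin (H x y)) (s : ℕ) (h : s + 1 < r),
      ∃ ij : Nd × Nd, SEAdj 3 3 ij.1 ij.2 ∧ le s h ij.1 ij.2 ∈ (P e).1.edges := by
    intro e s h
    obtain ⟨a, b, hab, hmem, ha, hb⟩ := crossing (P e).1 {p | (p.1 : ℕ) ≤ s}
      (by simp only [Set.mem_ofPred_eq]; omega) (by simp only [Set.mem_ofPred_eq]; omega)
    simp only [Set.mem_ofPred_eq] at ha hb
    rcases hab with ⟨h1, h2⟩ | ⟨h1, -⟩
    · refine ⟨(a.2, b.2), h2, ?_⟩
      have e1 : a = (⟨s, by omega⟩, a.2) := Prod.ext (Fin.ext (by simp only; omega)) rfl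
      have e2 : b = (⟨s + 1, h⟩, b.2) := Prod.ext (Fin.ext (by simp only; omega)) rfl
      unfold le
      rwa [← e1, ← e2]
    · omega
  choose f hf1 hf2 using hlev
  have hinj : ∀ s (h : s + 1 < r) e e', f e s h = f e' s h → e = e' := by
    intro s h e e' he
    by_contra hne
    have h1 := hf2 e s h
    rw [he] at h1
    exact hP e e' hne _ h1 (hf2 e' s h)
  have huniq : ∀ e s (h : s + 1 < r) (i j : Nd), SEAdj 3 3 i j →
      le s h i j ∈ (P e).1.edges → f e s h = (i, j) := by
    intro e s h i j hij hmem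
    let F : (Σ x : Nd, Σ y : Nd, Fin (H x y)) → {ij : Nd × Nd // SEAdj 3 3 ij.1 ij.2} :=
      fun e => ⟨f e s h, hf1 e s h⟩
    have hF : Function.Injective F := by
      intro e e' he
      exact hinj s h e e' (congrArg Subtype.val he)
    have hbij : Function.Bijective F := by
      rw [Fintype.bijective_iff_injective_and_card]
      exact ⟨hF, by rw [card_mask hH, card_level]⟩
    obtain ⟨e', he'⟩ := hbij.2 ⟨(i, j), hij⟩
    have h1 : f e' s h = (i, j) := congrArg Subtype.val he'
    have h2 := hf2 e' s h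
    rw [h1] at h2
    have h3 : e = e' := by
      by_contra hne
      exact hP e e' hne _ hmem h2
    rw [h3]
    exact h1
  have hglue : ∀ e s (h : s + 1 < r) (h' : s + 1 + 1 < r), (f e s h).2 = (f e (s + 1) h').1 := by
    intro e s h h'
    obtain ⟨a, b, hab, hmem, ha, hb⟩ := crossing (P e).1
      ({p | (p.1 : ℕ) ≤ s} ∪ {(⟨s + 1, h⟩, (f e s h).2)})
      (by left; simp only [Set.mem_ofPred_eq]; omega)
      (by
        rintro (h1 | h1)
        · simp only [Set.mem_ofPred_eq] at h1; omega
        · rw [Set.mem_singleton_iff] at h1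
          have h2 := congrArg (fun p => (p.1 : ℕ)) h1
          simp only at h2
          omega)
    rw [Set.mem_union, not_or, Set.mem_ofPred_eq, Set.mem_singleton_iff] at hb
    rcases ha with ha | ha
    · rw [Set.mem_ofPred_eq] at ha
      exfalso
      rcases hab with ⟨h1, h2⟩ | ⟨h1, -⟩
      · have e1 : a = (⟨s, by omega⟩, a.2) := Prod.ext (Fin.ext (by simp only; omega)) rfl
        have e2 : b = (⟨s + 1, h⟩, b.2) := Prod.ext (Fin.ext (by simp only; omega)) rfl
        have h3 : le s h a.2 b.2 ∈ (P e).1.edges := by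
          unfold le
          rwa [← e1, ← e2]
        have h4 := huniq e s h _ _ h2 h3
        apply hb.2
        rw [h4]
        exact e2
      · omega
    · rw [Set.mem_singleton_iff] at ha
      rcases hab with ⟨h1, h2⟩ | ⟨h1, -⟩
      · have ha1 : (a.1 : ℕ) = s + 1 := by rw [ha]
        have ha2 : a.2 = (f e s h).2 := by rw [ha]
        have e1 : a = (⟨s + 1, by omega⟩, a.2) := Prod.ext (Fin.ext (by simp only; omega)) rfl
        have e2 : b = (⟨s + 1 + 1, h'⟩, b.2) := Prod.ext (Fin.ext (by simp only; omega)) rfl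
        have h3 : le (s + 1) h' a.2 b.2 ∈ (P e).1.edges := by
          unfold le
          rwa [← e1, ← e2]
        have h4 := huniq e (s + 1) h' _ _ h2 h3
        rw [h4, ← ha2]
      · have ha1 : (a.1 : ℕ) = s + 1 := by rw [ha]
        omega
  have hstart : ∀ e, (f e 0 (by omega)).1 = e.1 := by
    intro e
    obtain ⟨a, b, hab, hmem, ha, hb⟩ := crossing (P e).1 {(first, e.1)}
      (Set.mem_singleton _) (by
        intro h1
        rw [Set.mem_singleton_iff] at h1
        have h2 := congrArg (fun p => (p.1 : ℕ)) h1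
        simp only at h2
        omega)
    rw [Set.mem_singleton_iff] at ha
    have ha1 : (a.1 : ℕ) = 0 := by rw [ha]; exact hfirst
    have ha2 : a.2 = e.1 := by rw [ha]
    rcases hab with ⟨h1, h2⟩ | ⟨h1, -⟩
    · have e1 : a = (⟨0, by omega⟩, a.2) := Prod.ext (Fin.ext (by simp only; omega)) rfl
      have e2 : b = (⟨0 + 1, by omega⟩, b.2) := Prod.ext (Fin.ext (by simp only; omega)) rfl
      have h3 : le 0 (by omega) a.2 b.2 ∈ (P e).1.edges := by
        unfold le
        rwa [← e1, ← e2]
      have h4 := huniq e 0 (by omega) _ _ h2 h3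
      rw [h4, ← ha2]
    · omega
  have hend : ∀ e s (h : s + 1 < r), s + 1 + 1 = r → (f e s h).2 = e.2.1 := by
    intro e s h hs
    obtain ⟨a, b, hab, hmem, ha, hb⟩ := crossing (P e).1 {(last, e.2.1)}ᶜ
      (by
        intro h1
        rw [Set.mem_singleton_iff] at h1
        have h2 := congrArg (fun p => (p.1 : ℕ)) h1
        simp only at h2
        omega) (by simp)
    rw [Set.mem_compl_iff, not_not, Set.mem_singleton_iff] at hb
    have hb1 : (b.1 : ℕ) + 1 = r := by rw [hb]; exact hlast
    have hb2 : b.2 = e.2.1 := by rw [hb]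
    rcases hab with ⟨h1, h2⟩ | ⟨h1, -⟩
    · have e1 : a = (⟨s, by omega⟩, a.2) := Prod.ext (Fin.ext (by simp only; omega)) rfl
      have e2 : b = (⟨s + 1, h⟩, b.2) := Prod.ext (Fin.ext (by simp only; omega)) rfl
      have h3 : le s h a.2 b.2 ∈ (P e).1.edges := by
        unfold le
        rwa [← e1, ← e2]
      have h4 := huniq e s h _ _ h2 h3
      rw [h4, ← hb2]
    · have := a.1.isLt
      omega
  let w : (Σ x : Nd, Σ y : Nd, Fin (H x y)) → ℕ → Nd := fun e s =>
    if h : s + 1 < r then (f e s h).1 else e.2.1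
  have hw1 : ∀ e s (h : s + 1 < r), w e s = (f e s h).1 := by
    intro e s h
    simp only [w, dif_pos h]
  have hw2 : ∀ e s (h : s + 1 < r), w e (s + 1) = (f e s h).2 := by
    intro e s h
    by_cases h' : s + 1 + 1 < r
    · rw [hw1 e (s + 1) h', hglue e s h h']
    · simp only [w, dif_neg h']
      exact (hend e s h (by omega)).symm
  refine ⟨w, ?_, ?_, ?_, ?_⟩
  · intro e
    rw [hw1 e 0 (by omega)]
    exact hstart e
  · intro e
    simp only [w]
    rw [dif_neg (by omega)]
  · intro e s h
    rw [hw1 e s h, hw2 e s h]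
    exact hf1 e s h
  · intro e e' hne s h
    rw [hw1 e s h, hw2 e s h, hw1 e' s h, hw2 e' s h]
    rintro ⟨h1, h2⟩
    exact hne (hinj s h e e' (Prod.ext h1 h2))

/-! ### From words to edge-disjoint paths -/

lemma build {r : ℕ} (w : ℕ → Nd) (hw : ∀ s, s + 1 < r → SEAdj 3 3 (w s) (w (s + 1)))
    (h0 : 0 < r) : ∀ j (hj : j < r), ∃ p : (stageGraph 3 3 r).Walk (⟨0, h0⟩, w 0) (⟨j, hj⟩, w j),
      p.IsPath ∧ (∀ v ∈ p.support, (v.1 : ℕ) ≤ j) ∧
      (∀ a ∈ p.edges, ∃ s, ∃ h : s + 1 < r, a = le s h (w s) (w (s + 1))) := by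
  intro j
  induction j with
  | zero =>
    intro hj
    refine ⟨SimpleGraph.Walk.nil, SimpleGraph.Walk.IsPath.nil, ?_, ?_⟩
    · intro v hv
      rw [SimpleGraph.Walk.support_nil, List.mem_singleton] at hv
      rw [hv]
    · intro a ha
      simp at ha
  | succ j ih =>
    intro hj
    obtain ⟨p, hp1, hp2, hp3⟩ := ih (by omega)
    have hadj : (stageGraph 3 3 r).Adj (⟨j, by omega⟩, w j) (⟨j + 1, hj⟩, w (j + 1)) :=
      Or.inl ⟨rfl, hw j hj⟩
    refine ⟨p.concat hadj, hp1.concat ?_ hadj, ?_, ?_⟩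
    · intro h1
      have := hp2 _ h1
      simp only at this
      omega
    · intro v hv
      rw [SimpleGraph.Walk.support_concat, List.mem_append, List.mem_singleton] at hv
      rcases hv with hv | hv
      · have := hp2 v hv; omega
      · rw [hv]
    · intro a ha
      rw [SimpleGraph.Walk.edges_concat, List.concat_eq_append, List.mem_append,
        List.mem_singleton] at ha
      rcases ha with ha | ha
      · exact hp3 a ha
      · exact ⟨j, hj, ha⟩

/-! ### Koenig's edge colouring theorem for regular bipartite multigraphs -/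

theorem koenig_aux {E A B : Type} [Fintype A] [Fintype B] [DecidableEq E] [DecidableEq A]
    [DecidableEq B] (src : E → A) (tgt : E → B) (hAB : Fintype.card A = Fintype.card B) :
    ∀ (k : ℕ) (F : Finset E), (∀ a, (F.filter (fun e => src e = a)).card = k) →
      (∀ b, (F.filter (fun e => tgt e = b)).card = k) →
      ∃ c : E → ℕ, (∀ e ∈ F, c e < k) ∧
        (∀ e ∈ F, ∀ e' ∈ F, src e = src e' → c e = c e' → e = e') ∧
        (∀ e ∈ F, ∀ e' ∈ F, tgt e = tgt e' → c e = c e' → e = e') := by
  intro k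
  induction k with
  | zero =>
    intro F h1 _
    have hF : ∀ e ∈ F, False := by
      intro e he
      have := h1 (src e)
      rw [Finset.card_eq_zero] at this
      have h2 : e ∈ F.filter (fun e' => src e' = src e) := by
        rw [Finset.mem_filter]; exact ⟨he, rfl⟩
      rw [this] at h2
      simp at h2
    exact ⟨fun _ => 0, fun e he => (hF e he).elim, fun e he => (hF e he).elim,
      fun e he => (hF e he).elim⟩
  | succ k ih =>
    intro F h1 h2
    -- Hall's condition
    let N : A → Finset B := fun a => (F.filter (fun e => src e = a)).image tgt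
    have hall : ∀ S : Finset A, S.card ≤ (S.biUnion N).card := by
      intro S
      have c1 : (F.filter (fun e => src e ∈ S)).card = S.card * (k + 1) := by
        rw [Finset.card_eq_sum_card_fiberwise (f := src) (t := S)]
        · rw [Finset.sum_congr rfl (g := fun _ => k + 1)]
          · simp
          · intro a ha
            rw [← h1 a]
            congr 1
            ext e
            simp only [Finset.mem_filter]
            constructor
            · rintro ⟨⟨h3, -⟩, h4⟩; exact ⟨h3, h4⟩
            · rintro ⟨h3, h4⟩; exact ⟨⟨h3, by rw [h4]; exact ha⟩, h4⟩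
        · intro e he
          rw [Finset.mem_coe, Finset.mem_filter] at he
          exact he.2
      have c2 : (F.filter (fun e => tgt e ∈ S.biUnion N)).card = (S.biUnion N).card * (k + 1) := by
        rw [Finset.card_eq_sum_card_fiberwise (f := tgt) (t := S.biUnion N)]
        · rw [Finset.sum_congr rfl (g := fun _ => k + 1)]
          · simp
          · intro b hb
            rw [← h2 b]
            congr 1
            ext e
            simp only [Finset.mem_filter]
            constructor
            · rintro ⟨⟨h3, -⟩, h4⟩; exact ⟨h3, h4⟩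
            · rintro ⟨h3, h4⟩; exact ⟨⟨h3, by rw [h4]; exact hb⟩, h4⟩
        · intro e he
          rw [Finset.mem_coe, Finset.mem_filter] at he
          exact he.2
      have c3 : F.filter (fun e => src e ∈ S) ⊆ F.filter (fun e => tgt e ∈ S.biUnion N) := by
        intro e he
        rw [Finset.mem_filter] at he ⊢
        refine ⟨he.1, ?_⟩
        rw [Finset.mem_biUnion]
        exact ⟨src e, he.2, Finset.mem_image.mpr ⟨e, by rw [Finset.mem_filter]; exact ⟨he.1, rfl⟩,
          rfl⟩⟩
      have c4 := Finset.card_le_card c3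
      rw [c1, c2] at c4
      exact Nat.le_of_mul_le_mul_right c4 (by omega)
    obtain ⟨m, hm1, hm2⟩ := (Finset.all_card_le_biUnion_card_iff_exists_injective N).mp hall
    have hex : ∀ a, ∃ e ∈ F, src e = a ∧ tgt e = m a := by
      intro a
      have := hm2 a
      simp only [N, Finset.mem_image, Finset.mem_filter] at this
      obtain ⟨e, ⟨he1, he2⟩, he3⟩ := this
      exact ⟨e, he1, he2, he3⟩
    choose M hM1 hM2 hM3 using hex
    have hmbij : Function.Bijective m := by
      rw [Fintype.bijective_iff_injective_and_card]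
      exact ⟨hm1, hAB⟩
    have hMinj : Function.Injective M := by
      intro a a' h
      rw [← hM2 a, ← hM2 a', h]
    let F' : Finset E := F.filter (fun e => e ≠ M (src e))
    have hF'mem : ∀ e, e ∈ F' ↔ e ∈ F ∧ e ≠ M (src e) := by
      intro e; simp only [F', Finset.mem_filter]
    have g1 : ∀ a, (F'.filter (fun e => src e = a)).card = k := by
      intro a
      have h3 : F'.filter (fun e => src e = a) = (F.filter (fun e => src e = a)).erase (M a) := by
        ext e
        simp only [Finset.mem_filter, Finset.mem_erase, hF'mem]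
        constructor
        · rintro ⟨⟨h4, h5⟩, h6⟩
          rw [h6] at h5
          exact ⟨h5, h4, h6⟩
        · rintro ⟨h5, h4, h6⟩
          refine ⟨⟨h4, ?_⟩, h6⟩
          rw [h6]; exact h5
      rw [h3, Finset.card_erase_of_mem, h1 a]
      · rfl
      · rw [Finset.mem_filter]; exact ⟨hM1 a, hM2 a⟩
    have g2 : ∀ b, (F'.filter (fun e => tgt e = b)).card = k := by
      intro b
      obtain ⟨a, ha⟩ := hmbij.2 b
      have h3 : F'.filter (fun e => tgt e = b) = (F.filter (fun e => tgt e = b)).erase (M a) := by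
        ext e
        simp only [Finset.mem_filter, Finset.mem_erase, hF'mem]
        constructor
        · rintro ⟨⟨h4, h5⟩, h6⟩
          refine ⟨?_, h4, h6⟩
          rintro rfl
          exact h5 (by rw [hM2])
        · rintro ⟨h5, h4, h6⟩
          refine ⟨⟨h4, ?_⟩, h6⟩
          intro h7
          have h8 : tgt e = m (src e) := by rw [h7, hM3, hM2]
          rw [h6, ← ha] at h8
          have h9 := hm1 h8
          exact h5 (by rw [h9]; exact h7)
      rw [h3, Finset.card_erase_of_mem, h2 b]
      · rfl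
      · rw [Finset.mem_filter]; exact ⟨hM1 a, by rw [hM3, ha]⟩
    obtain ⟨c, hc1, hc2, hc3⟩ := ih F' g1 g2
    refine ⟨fun e => if e = M (src e) then k else c e, ?_, ?_, ?_⟩
    · intro e he
      simp only
      split_ifs with h3
      · omega
      · have := hc1 e ((hF'mem e).mpr ⟨he, h3⟩)
        omega
    · intro e he e' he' hs hc
      simp only at hc
      split_ifs at hc with h3 h4 h4
      · rw [h3, h4, hs]
      · have := hc1 e' ((hF'mem e').mpr ⟨he', h4⟩); omega
      · have := hc1 e ((hF'mem e).mpr ⟨he, h3⟩); omega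
      · exact hc2 e ((hF'mem e).mpr ⟨he, h3⟩) e' ((hF'mem e').mpr ⟨he', h4⟩) hs hc
    · intro e he e' he' hs hc
      simp only at hc
      split_ifs at hc with h3 h4 h4
      · have h5 : tgt e = m (src e) := by rw [h3, hM3, hM2]
        have h6 : tgt e' = m (src e') := by rw [h4, hM3, hM2]
        rw [h5, h6] at hs
        rw [h3, h4, hm1 hs]
      · have := hc1 e' ((hF'mem e').mpr ⟨he', h4⟩); omega
      · have := hc1 e ((hF'mem e).mpr ⟨he, h3⟩); omega
      · exact hc3 e ((hF'mem e).mpr ⟨he, h3⟩) e' ((hF'mem e').mpr ⟨he', h4⟩) hs hc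

theorem koenig {E A B : Type} [Fintype E] [Fintype A] [Fintype B] [DecidableEq E]
    [DecidableEq A] [DecidableEq B] (src : E → A) (tgt : E → B)
    (hAB : Fintype.card A = Fintype.card B) (k : ℕ)
    (h1 : ∀ a, (Finset.univ.filter (fun e => src e = a)).card = k)
    (h2 : ∀ b, (Finset.univ.filter (fun e => tgt e = b)).card = k) :
    ∃ c : E → ℕ, (∀ e, c e < k) ∧ (∀ e e', src e = src e' → c e = c e' → e = e') ∧
      (∀ e e', tgt e = tgt e' → c e = c e' → e = e') := by
  obtain ⟨c, h3, h4, h5⟩ := koenig_aux src tgt hAB k Finset.univ h1 h2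
  exact ⟨c, fun e => h3 e (Finset.mem_univ _),
    fun e e' => h4 e (Finset.mem_univ _) e' (Finset.mem_univ _),
    fun e e' => h5 e (Finset.mem_univ _) e' (Finset.mem_univ _)⟩

/-! ### The mask which needs six stages -/

/-- The node with number `m % 9`. -/
def nd (m : ℕ) : Nd := ⟨m % 9, Nat.mod_lt _ (by norm_num)⟩

lemma nd_val (m : ℕ) : (nd m).val = m % 9 := rfl

/-- The mask: three parallel edges from `x` to `x` for every `x`, except that one of the three
edges at each of `0, 4, 2, 6` leads to `4, 0, 6, 2` respectively. -/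
def H0 (x y : Nd) : ℕ := ∑ i : Fin 3, if tgt x.val i.val = y.val then 1 else 0

lemma H0_mask : IsMask 3 3 H0 := by
  unfold IsMask
  decide +kernel

/-- The number of the demand `(s, i)` among the parallel demands with the same ends. -/
def idx (s i : ℕ) : ℕ := if s = 0 ∨ s = 4 ∨ s = 2 ∨ s = 6 then i - 1 else i

lemma idx_lt : ∀ s < 9, ∀ i < 3, idx s i < H0 (nd s) (nd (tgt s i)) := by
  decide +kernel

lemma idx_inj : ∀ s < 9, ∀ i < 3, ∀ i' < 3,
    (tgt s i % 9 = tgt s i' % 9 ∧ idx s i = idx s i') → i = i' := by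
  decide +kernel

lemma one_lt : 0 < H0 (nd 1) (nd 1) := by decide +kernel

lemma tgt_lt : ∀ s < 9, ∀ i < 3, tgt s i < 9 := by decide

/-- The demand `(s, i)` of the mask. -/
def dem (s i : ℕ) : Σ x : Nd, Σ y : Nd, Fin (H0 x y) :=
  if h : idx s i < H0 (nd s) (nd (tgt s i)) then ⟨nd s, nd (tgt s i), ⟨idx s i, h⟩⟩
  else ⟨nd 1, nd 1, ⟨0, one_lt⟩⟩

lemma dem_eq {s i : ℕ} (hs : s < 9) (hi : i < 3) :
    dem s i = ⟨nd s, nd (tgt s i), ⟨idx s i, idx_lt s hs i hi⟩⟩ := by
  unfold dem
  rw [dif_pos (idx_lt s hs i hi)]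

lemma dem_fst {s i : ℕ} (hs : s < 9) (hi : i < 3) : (dem s i).1 = nd s := by
  rw [dem_eq hs hi]

lemma dem_snd {s i : ℕ} (hs : s < 9) (hi : i < 3) : (dem s i).2.1 = nd (tgt s i) := by
  rw [dem_eq hs hi]

lemma dem_inj {s i s' i' : ℕ} (hs : s < 9) (hi : i < 3) (hs' : s' < 9) (hi' : i' < 3)
    (h : dem s i = dem s' i') : (s, i) = (s', i') := by
  rw [dem_eq hs hi, dem_eq hs' hi'] at h
  have h1 := congrArg (fun e => e.1.val) h
  have h2 := congrArg (fun e => e.2.1.val) h
  have h3 := congrArg (fun e => e.2.2.val) h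
  have h4 : s = s' := by
    change s % 9 = s' % 9 at h1
    omega
  subst h4
  rw [idx_inj s hs i hi i' hi' ⟨h2, h3⟩]

lemma nd_eq {a b : Nd} (h : a.val = b.val) : a = b := Fin.ext h

lemma adj_val {a b : Nd} (h : SEAdj 3 3 a b) : b.val / 3 = a.val % 3 := (seadj_iff a b).mp h

lemma not_two : ¬ Rearrangeable 3 3 2 := by
  intro h
  obtain ⟨P, hP⟩ := h H0 H0_mask 0 1 rfl rfl
  obtain ⟨w, h0, h1, h2, -⟩ := words (by norm_num) H0_mask rfl rfl P hP
  have e0 := h0 (dem 1 0)
  have e1 := h1 (dem 1 0)
  have e2 := adj_val (h2 (dem 1 0) 0 (by norm_num))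
  rw [dem_fst (by norm_num) (by norm_num)] at e0
  rw [dem_snd (by norm_num) (by norm_num)] at e1
  simp only [Nat.add_one_sub_one, zero_add] at e1 e2
  rw [e0, e1, nd_val, nd_val] at e2
  revert e2
  decide

lemma not_three : ¬ Rearrangeable 3 3 3 := by
  intro h
  obtain ⟨P, hP⟩ := h H0 H0_mask 0 2 rfl rfl
  obtain ⟨w, h0, h1, h2, h3⟩ := words (by norm_num) H0_mask rfl rfl P hP
  have key : ∀ i < 3, (w (dem 1 i) 1).val = 3 := by
    intro i hi
    have e0 := h0 (dem 1 i)
    have e1 := h1 (dem 1 i)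
    have e2 := adj_val (h2 (dem 1 i) 0 (by norm_num))
    have e3 := adj_val (h2 (dem 1 i) 1 (by norm_num))
    rw [dem_fst (by norm_num) hi] at e0
    rw [dem_snd (by norm_num) hi] at e1
    have ht : tgt 1 i = 1 := by
      unfold tgt
      simp
    have e4 : (w (dem 1 i) 2).val = 1 := by
      have := congrArg Fin.val e1
      rw [nd_val, ht] at this
      exact this
    have e5 : (w (dem 1 i) 0).val = 1 := by
      have := congrArg Fin.val e0
      rw [nd_val] at this
      exact this
    simp only [zero_add] at e2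
    norm_num at e3
    omega
  have hne : dem 1 0 ≠ dem 1 1 := by
    intro h
    have := dem_inj (by norm_num) (by norm_num) (by norm_num) (by norm_num) h
    simp at this
  apply h3 _ _ hne 0 (by norm_num)
  constructor
  · rw [h0, h0, dem_fst (by norm_num) (by norm_num), dem_fst (by norm_num) (by norm_num)]
  · exact nd_eq ((key 0 (by norm_num)).trans (key 1 (by norm_num)).symm)

lemma not_four : ¬ Rearrangeable 3 3 4 := by
  intro h
  obtain ⟨P, hP⟩ := h H0 H0_mask 0 3 rfl rfl
  obtain ⟨w, h0, h1, h2, h3⟩ := words (by norm_num) H0_mask rfl rfl P hP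
  -- the demands from a node with last letter 0 to a node with first letter 1
  have key : ∀ s < 9, ∀ i < 3, ∀ s' < 9, ∀ i' < 3, (s, i) ≠ (s', i') → s % 3 = 0 →
      s' % 3 = 0 → tgt s i / 3 = 1 → tgt s' i' / 3 = 1 →
      (w (dem s i) 1).val % 3 ≠ (w (dem s' i') 1).val % 3 := by
    intro s hs i hi s' hs' i' hi' hne hm hm' ht ht' hz
    have hd : dem s i ≠ dem s' i' := fun h => hne (dem_inj hs hi hs' hi' h)
    have e0 := congrArg Fin.val (h0 (dem s i))
    have e1 := congrArg Fin.val (h1 (dem s i))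
    have e2 := adj_val (h2 (dem s i) 0 (by norm_num))
    have e3 := adj_val (h2 (dem s i) 1 (by norm_num))
    have e4 := adj_val (h2 (dem s i) 2 (by norm_num))
    have e0' := congrArg Fin.val (h0 (dem s' i'))
    have e1' := congrArg Fin.val (h1 (dem s' i'))
    have e2' := adj_val (h2 (dem s' i') 0 (by norm_num))
    have e3' := adj_val (h2 (dem s' i') 1 (by norm_num))
    have e4' := adj_val (h2 (dem s' i') 2 (by norm_num))
    rw [dem_fst hs hi, nd_val] at e0
    rw [dem_snd hs hi, nd_val] at e1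
    rw [dem_fst hs' hi', nd_val] at e0'
    rw [dem_snd hs' hi', nd_val] at e1'
    have t1 := tgt_lt s hs i hi
    have t2 := tgt_lt s' hs' i' hi'
    norm_num at e1 e2 e3 e4 e1' e2' e3' e4'
    apply h3 _ _ hd 1 (by norm_num)
    constructor
    · apply nd_eq; omega
    · apply nd_eq
      norm_num
      omega
  have k1 := key 0 (by norm_num) 0 (by norm_num) 3 (by norm_num) 0 (by norm_num) (by decide)
    (by decide) (by decide) (by decide) (by decide)
  have k2 := key 0 (by norm_num) 0 (by norm_num) 3 (by norm_num) 1 (by norm_num) (by decide)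
    (by decide) (by decide) (by decide) (by decide)
  have k3 := key 0 (by norm_num) 0 (by norm_num) 3 (by norm_num) 2 (by norm_num) (by decide)
    (by decide) (by decide) (by decide) (by decide)
  have k4 := key 3 (by norm_num) 0 (by norm_num) 3 (by norm_num) 1 (by norm_num) (by decide)
    (by decide) (by decide) (by decide) (by decide)
  have k5 := key 3 (by norm_num) 0 (by norm_num) 3 (by norm_num) 2 (by norm_num) (by decide)
    (by decide) (by decide) (by decide) (by decide)
  have k6 := key 3 (by norm_num) 1 (by norm_num) 3 (by norm_num) 2 (by norm_num) (by decide)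
    (by decide) (by decide) (by decide) (by decide)
  omega

lemma not_five : ¬ Rearrangeable 3 3 5 := by
  intro h
  obtain ⟨P, hP⟩ := h H0 H0_mask 0 4 rfl rfl
  obtain ⟨w, h0, h1, h2, h3⟩ := words (by norm_num) H0_mask rfl rfl P hP
  have f0 : ∀ s < 9, ∀ i < 3, (w (dem s i) 0).val = s := by
    intro s hs i hi
    have e0 := congrArg Fin.val (h0 (dem s i))
    rw [dem_fst hs hi, nd_val] at e0
    omega
  have f4 : ∀ s < 9, ∀ i < 3, (w (dem s i) 4).val = tgt s i := by
    intro s hs i hi
    have e0 := congrArg Fin.val (h1 (dem s i))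
    rw [dem_snd hs hi, nd_val] at e0
    have := tgt_lt s hs i hi
    norm_num at e0
    omega
  have f1 : ∀ s i, (w (dem s i) 1).val / 3 = (w (dem s i) 0).val % 3 :=
    fun s i => adj_val (h2 (dem s i) 0 (by norm_num))
  have f2 : ∀ s i, (w (dem s i) 2).val / 3 = (w (dem s i) 1).val % 3 :=
    fun s i => adj_val (h2 (dem s i) 1 (by norm_num))
  have f3 : ∀ s i, (w (dem s i) 3).val / 3 = (w (dem s i) 2).val % 3 :=
    fun s i => adj_val (h2 (dem s i) 2 (by norm_num))
  have f5 : ∀ s i, (w (dem s i) 4).val / 3 = (w (dem s i) 3).val % 3 :=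
    fun s i => adj_val (h2 (dem s i) 3 (by norm_num))
  refine core (fun s i => (w (dem s i) 1).val % 3) (fun s i => (w (dem s i) 2).val % 3)
    (fun _ _ => Nat.mod_lt _ (by norm_num)) (fun _ _ => Nat.mod_lt _ (by norm_num)) ?_ ?_ ?_ ?_
  · intro s hs i hi j hj hz
    by_contra hne
    have hd : dem s i ≠ dem s j := by
      intro h
      have := dem_inj hs hi hs hj h
      simp only [Prod.mk.injEq, true_and] at this
      exact hne this
    apply h3 _ _ hd 0 (by norm_num)
    have a1 := f0 s hs i hi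
    have a2 := f0 s hs j hj
    have a3 := f1 s i
    have a4 := f1 s j
    constructor
    · apply nd_eq; omega
    · apply nd_eq
      simp only [zero_add]
      omega
  · intro s hs i hi s' hs' i' hi' hne hm hz hz2
    have hd : dem s i ≠ dem s' i' := fun h => hne (dem_inj hs hi hs' hi' h)
    apply h3 _ _ hd 1 (by norm_num)
    have a1 := f0 s hs i hi
    have a2 := f0 s' hs' i' hi'
    have a3 := f1 s i
    have a4 := f1 s' i'
    have a5 := f2 s i
    have a6 := f2 s' i'
    constructor
    · apply nd_eq; omega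
    · apply nd_eq
      norm_num
      omega
  · intro s hs i hi s' hs' i' hi' hne hm hz hz2
    have hd : dem s i ≠ dem s' i' := fun h => hne (dem_inj hs hi hs' hi' h)
    apply h3 _ _ hd 2 (by norm_num)
    have a1 := f4 s hs i hi
    have a2 := f4 s' hs' i' hi'
    have a3 := f5 s i
    have a4 := f5 s' i'
    have a5 := f2 s i
    have a6 := f2 s' i'
    have a7 := f3 s i
    have a8 := f3 s' i'
    constructor
    · apply nd_eq; omega
    · apply nd_eq
      norm_num
      omega
  · intro s hs i hi s' hs' i' hi' hne hm hz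
    have hd : dem s i ≠ dem s' i' := fun h => hne (dem_inj hs hi hs' hi' h)
    apply h3 _ _ hd 3 (by norm_num)
    have a1 := f4 s hs i hi
    have a2 := f4 s' hs' i' hi'
    have a3 := f5 s i
    have a4 := f5 s' i'
    have a7 := f3 s i
    have a8 := f3 s' i'
    constructor
    · apply nd_eq; omega
    · apply nd_eq
      norm_num
      omega

/-! ### Six stages suffice -/

lemma fibre_card {E A : Type} [Fintype E] [Fintype A] [DecidableEq A] (f : E → A) (k : ℕ)
    (hle : ∀ a, (Finset.univ.filter (fun e => f e = a)).card ≤ k)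
    (htot : Fintype.card E = Fintype.card A * k) :
    ∀ a, (Finset.univ.filter (fun e => f e = a)).card = k := by
  have h1 : ∑ a, (Finset.univ.filter (fun e => f e = a)).card = ∑ _a : A, k := by
    rw [← Finset.card_eq_sum_card_fiberwise (fun e _ => Finset.mem_coe.mpr (Finset.mem_univ (f e)))]
    simp [htot]
  have h2 := (Finset.sum_eq_sum_iff_of_le (fun a _ => hle a)).mp h1
  exact fun a => h2 a (Finset.mem_univ a)

lemma card_src {H : Nd → Nd → ℕ} (hH : IsMask 3 3 H) (x : Nd) :
    (Finset.univ.filter (fun e : Σ x : Nd, Σ y : Nd, Fin (H x y) => e.1 = x)).card = 3 := by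
  rw [Finset.card_filter, Fintype.sum_sigma]
  simp only [Fintype.sum_sigma]
  rw [Finset.sum_eq_single x]
  · simp [hH.1 x]
  · intro b _ hb
    simp [hb]
  · intro h; exact absurd (Finset.mem_univ x) h

lemma card_tgt {H : Nd → Nd → ℕ} (hH : IsMask 3 3 H) (y : Nd) :
    (Finset.univ.filter (fun e : Σ x : Nd, Σ y : Nd, Fin (H x y) => e.2.1 = y)).card = 3 := by
  rw [Finset.card_filter, Fintype.sum_sigma]
  simp only [Fintype.sum_sigma]
  refine Eq.trans ?_ (hH.2 y)
  apply Finset.sum_congr rfl
  intro x _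
  rw [Finset.sum_eq_single y]
  · simp
  · intro b _ hb
    simp [hb]
  · intro h; exact absurd (Finset.mem_univ y) h

/-- The class of the first letter of a node. -/
def fl (x : Nd) : Fin 3 := ⟨x.val / 3, by have := x.isLt; norm_num at this; omega⟩

/-- The class of the last letter of a node. -/
def ll (x : Nd) : Fin 3 := ⟨x.val % 3, Nat.mod_lt _ (by norm_num)⟩

lemma card_fl : ∀ a : Fin 3, (Finset.univ.filter (fun x : Nd => fl x = a)).card = 3 := by
  decide +kernel

lemma card_ll : ∀ a : Fin 3, (Finset.univ.filter (fun x : Nd => ll x = a)).card = 3 := by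
  decide +kernel

lemma six : Rearrangeable 3 3 6 := by
  classical
  intro H hH first last hfirst hlast
  obtain rfl : first = ⟨0, by norm_num⟩ := Fin.ext hfirst
  obtain rfl : last = ⟨5, by norm_num⟩ := Fin.ext (by simp only; omega)
  obtain ⟨c1, c1lt, c1s, c1t⟩ := koenig (fun e : Σ x : Nd, Σ y : Nd, Fin (H x y) => e.1)
    (fun e => e.2.1) rfl 3 (card_src hH) (card_tgt hH)
  have hcard := card_mask hH
  have q1 : ∀ a : Fin 3 × Fin 3, (Finset.univ.filter
      (fun e : Σ x : Nd, Σ y : Nd, Fin (H x y) =>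
        ((⟨c1 e, c1lt e⟩, ll e.1) : Fin 3 × Fin 3) = a)).card = 3 := by
    apply fibre_card
    · rintro ⟨a, b⟩
      refine le_of_le_of_eq ?_ (card_ll b)
      apply Finset.card_le_card_of_injOn (fun e => e.1)
      · intro e he
        rw [Finset.mem_coe, Finset.mem_filter] at he ⊢
        exact ⟨Finset.mem_univ _, (Prod.ext_iff.mp he.2).2⟩
      · intro e he e' he' h
        rw [Finset.mem_coe, Finset.mem_filter] at he he'
        have h1 := congrArg Fin.val (Prod.ext_iff.mp he.2).1
        have h2 := congrArg Fin.val (Prod.ext_iff.mp he'.2).1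
        simp only at h1 h2
        exact c1s e e' h (h1.trans h2.symm)
    · rw [hcard]; rfl
  have q2 : ∀ a : Fin 3 × Fin 3, (Finset.univ.filter
      (fun e : Σ x : Nd, Σ y : Nd, Fin (H x y) =>
        ((⟨c1 e, c1lt e⟩, fl e.2.1) : Fin 3 × Fin 3) = a)).card = 3 := by
    apply fibre_card
    · rintro ⟨a, b⟩
      refine le_of_le_of_eq ?_ (card_fl b)
      apply Finset.card_le_card_of_injOn (fun e => e.2.1)
      · intro e he
        rw [Finset.mem_coe, Finset.mem_filter] at he ⊢
        exact ⟨Finset.mem_univ _, (Prod.ext_iff.mp he.2).2⟩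
      · intro e he e' he' h
        rw [Finset.mem_coe, Finset.mem_filter] at he he'
        have h1 := congrArg Fin.val (Prod.ext_iff.mp he.2).1
        have h2 := congrArg Fin.val (Prod.ext_iff.mp he'.2).1
        simp only at h1 h2
        exact c1t e e' h (h1.trans h2.symm)
    · rw [hcard]; rfl
  obtain ⟨c2, c2lt, c2s, c2t⟩ := koenig
    (fun e : Σ x : Nd, Σ y : Nd, Fin (H x y) => ((⟨c1 e, c1lt e⟩, ll e.1) : Fin 3 × Fin 3))
    (fun e => ((⟨c1 e, c1lt e⟩, fl e.2.1) : Fin 3 × Fin 3)) rfl 3 q1 q2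
  -- the words
  let w : (Σ x : Nd, Σ y : Nd, Fin (H x y)) → ℕ → Nd := fun e s => match s with
    | 0 => e.1
    | 1 => nd (3 * (e.1.val % 3) + c1 e)
    | 2 => nd (3 * c1 e + c2 e)
    | 3 => nd (3 * c2 e + (c1 e + e.2.1.val / 3) % 3)
    | 4 => nd (3 * ((c1 e + e.2.1.val / 3) % 3) + e.2.1.val / 3)
    | _ => e.2.1
  have hx : ∀ x : Nd, x.val < 9 := by
    intro x
    have := x.isLt
    norm_num at this
    exact this
  have v0 : ∀ e, (w e 0).val = e.1.val := fun e => rfl
  have v1 : ∀ e, (w e 1).val = (3 * (e.1.val % 3) + c1 e) % 9 := fun e => rfl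
  have v2 : ∀ e, (w e 2).val = (3 * c1 e + c2 e) % 9 := fun e => rfl
  have v3 : ∀ e, (w e 3).val = (3 * c2 e + (c1 e + e.2.1.val / 3) % 3) % 9 := fun e => rfl
  have v4 : ∀ e, (w e 4).val =
      (3 * ((c1 e + e.2.1.val / 3) % 3) + e.2.1.val / 3) % 9 := fun e => rfl
  have v5 : ∀ e, (w e 5).val = e.2.1.val := fun e => rfl
  have d1 : ∀ e, (w e 1).val / 3 = e.1.val % 3 ∧ (w e 1).val % 3 = c1 e := by
    intro e
    have u := v1 e
    have b := c1lt e
    clear * - u b
    omega
  have d2 : ∀ e, (w e 2).val / 3 = c1 e ∧ (w e 2).val % 3 = c2 e := by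
    intro e
    have u := v2 e
    have b := c1lt e
    have b' := c2lt e
    clear * - u b b'
    omega
  have d3 : ∀ e, (w e 3).val / 3 = c2 e ∧ (w e 3).val % 3 = (c1 e + e.2.1.val / 3) % 3 := by
    intro e
    have u := v3 e
    have b' := c2lt e
    have b : (c1 e + e.2.1.val / 3) % 3 < 3 := Nat.mod_lt _ (by norm_num)
    generalize (c1 e + e.2.1.val / 3) % 3 = z at *
    clear * - u b b'
    omega
  have d4 : ∀ e, (w e 4).val / 3 = (c1 e + e.2.1.val / 3) % 3 ∧
      (w e 4).val % 3 = e.2.1.val / 3 := by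
    intro e
    have u := v4 e
    have b' := hx e.2.1
    have b : (c1 e + e.2.1.val / 3) % 3 < 3 := Nat.mod_lt _ (by norm_num)
    generalize (c1 e + e.2.1.val / 3) % 3 = z at *
    clear * - u b b'
    omega
  have hadj : ∀ e s, s + 1 < 6 → SEAdj 3 3 (w e s) (w e (s + 1)) := by
    intro e s hs
    rw [seadj_iff]
    replace hs : s < 5 := by omega
    interval_cases s
    · exact (d1 e).1
    · exact (d2 e).1.trans (d1 e).2.symm
    · exact (d3 e).1.trans (d2 e).2.symm
    · exact (d4 e).1.trans (d3 e).2.symm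
    · exact (d4 e).2.symm
  choose p hp1 hp2 hp3 using fun e => build (r := 6) (w e) (hadj e) (by norm_num) 5 (by norm_num)
  refine ⟨fun e => ⟨p e, hp1 e⟩, ?_⟩
  intro e e' hne a ha ha'
  apply hne
  obtain ⟨s, hs, h1⟩ := hp3 e a ha
  obtain ⟨s', hs', h2⟩ := hp3 e' a ha'
  rw [h1] at h2
  obtain ⟨rfl, h4, h5⟩ := le_inj h2
  have b1 := c1lt e
  have b2 := c2lt e
  have b3 := hx e.1
  have b4 := hx e.2.1
  have b1' := c1lt e'
  have b2' := c2lt e'
  have b3' := hx e'.1
  have b4' := hx e'.2.1
  have h4' := congrArg Fin.val h4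
  have h5' := congrArg Fin.val h5
  replace hs : s < 5 := by omega
  interval_cases s
  · change (w e 1).val = (w e' 1).val at h5'
    have g1 := (d1 e).2
    have g1' := (d1 e').2
    exact c1s e e' (nd_eq h4') (by omega)
  · change (w e 2).val = (w e' 2).val at h5'
    have g0 := (d1 e).1
    have g0' := (d1 e').1
    have g1 := (d1 e).2
    have g1' := (d1 e').2
    have g2 := (d2 e).2
    have g2' := (d2 e').2
    refine c2s e e' ?_ (by omega)
    apply Prod.ext
    · apply Fin.ext
      change c1 e = c1 e'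
      omega
    · apply Fin.ext
      change e.1.val % 3 = e'.1.val % 3
      omega
  · change (w e 3).val = (w e' 3).val at h5'
    have g1 := (d2 e).1
    have g1' := (d2 e').1
    have g2 := (d2 e).2
    have g2' := (d2 e').2
    have g3 := (d3 e).2
    have g3' := (d3 e').2
    refine c2t e e' ?_ (by omega)
    apply Prod.ext
    · apply Fin.ext
      change c1 e = c1 e'
      omega
    · apply Fin.ext
      change e.2.1.val / 3 = e'.2.1.val / 3
      omega
  · change (w e 4).val = (w e' 4).val at h5'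
    have g2 := (d3 e).1
    have g2' := (d3 e').1
    have g3 := (d3 e).2
    have g3' := (d3 e').2
    have g4 := (d4 e).2
    have g4' := (d4 e').2
    refine c2t e e' ?_ (by omega)
    apply Prod.ext
    · apply Fin.ext
      change c1 e = c1 e'
      omega
    · apply Fin.ext
      change e.2.1.val / 3 = e'.2.1.val / 3
      omega
  · change e.2.1.val = e'.2.1.val at h5'
    have g3 := (d4 e).1
    have g3' := (d4 e').1
    exact c1t e e' (nd_eq h5') (by omega)

/-- **The rearrangeability number `r(3,3)` is 6**, not `2 * 3 - 1 = 5`: six stages suffice for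
the ternary shuffle-exchange graph on words of length 3 and no smaller number does. -/
theorem result : IsLeast {r | 2 ≤ r ∧ Rearrangeable 3 3 r} 6 := by
  constructor
  · exact ⟨by norm_num, six⟩
  · rintro r ⟨h1, h2⟩
    by_contra h3
    rw [not_le] at h3
    interval_cases r
    · exact not_two h2
    · exact not_three h2
    · exact not_four h2
    · exact not_five h2

end Pool.Agent.Results.MP_ec5f85_co.ShuffleThree
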